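import Pool.Agent.Helper59.AN.Goals

/-! # Packet ANA (2871): the generic sets are analytic -/

noncomputable section

namespace AN.PkANA

open Pool.Agent.Helper97.Ku NU BSet

variable {L : Type} [CompleteBooleanAlgebra L]

theorem iff_trans (c p q : L) : iffV p q ⊓ iffV c p ≤ iffV c q := by
  unfold iffV
  refine le_inf ?_ ?_
  · refine le_trans ?_ (himp_triangle c p q)
    exact le_inf (le_trans inf_le_right inf_le_left) (le_trans inf_le_left inf_le_left)
  · refine le_trans ?_ (himp_triangle q p c)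
    exact le_inf (le_trans inf_le_left inf_le_right) (le_trans inf_le_right inf_le_right)

theorem agr_le (n : ℕ) (s : Finset ℕ) (a b : ℕ → L) :
    (⨅ n, iffV (a n) (b n)) ⊓ agr n s a ≤ agr n s b := by
  unfold agr
  refine le_iInf fun m => le_iInf fun hm => ?_
  refine le_trans ?_ (iff_trans (bo (m ∈ s)) (a m) (b m))
  exact inf_le_inf (iInf_le _ m) (le_trans (iInf_le _ m) (iInf_le _ hm))

theorem Ov_le (γ : ℕ → Finset ℕ → Finset ℕ → L) (k : ℕ) (a b y : ℕ → L) :
    (⨅ n, iffV (a n) (b n)) ⊓ Ov γ k a y ≤ Ov γ k b y := by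
  unfold Ov
  rw [inf_iSup_eq]
  refine iSup_mono fun n => ?_
  rw [inf_iSup_eq]
  refine iSup_mono fun s => ?_
  rw [inf_iSup_eq]
  refine iSup_mono fun t => ?_
  refine le_inf (le_trans inf_le_right inf_le_left) (le_inf
    (le_trans inf_le_right (le_trans inf_le_right inf_le_left)) (le_inf ?_
      (le_trans inf_le_right (le_trans inf_le_right (le_trans inf_le_right inf_le_right)))))
  refine le_trans ?_ (agr_le n s a b)
  exact inf_le_inf_left _ (le_trans inf_le_right (le_trans inf_le_right inf_le_left))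

theorem xr (γ : ℕ → Finset ℕ → Finset ℕ → L) : XR (beta γ) := by
  intro a b
  unfold beta
  rw [inf_iSup_eq]
  refine iSup_mono fun y => ?_
  refine le_iInf fun k => ?_
  refine le_trans ?_ (Ov_le γ k a b y)
  exact inf_le_inf_left _ (iInf_le _ k)

theorem iInf_omN (φ : BSet L → L) (h : BSet.Ext φ) :
    (⨅ k : BSet L, (k.mem omN ⇨ φ k)) = ⨅ n : ℕ, φ (nn n) := by
  rw [BSet.iInf_mem omN φ h]
  change (⨅ n : ℕ, ((⊤ : L) ⇨ φ (nn n))) = _
  simp only [top_himp]

theorem ana : G_RN → G_RQ → G_EXT → G_INO → G_ANA := by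
  intro _ hRQ hEXT hINO L _ γ
  refine ⟨xr γ, ?_⟩
  obtain ⟨_, h2, _, _, _, h6⟩ := hRQ L
  obtain ⟨e1, e2, _, _⟩ := hEXT L
  have hp : ∀ a : ℕ → L, prjV omN (cN γ) (rN a) = beta γ a := by
    intro a
    unfold prjV
    rw [h2 (fun y => ⨅ k : BSet L, (k.mem omN ⇨ inoV omN (cN γ) k (rN a) y))
      (BSet.Ext.iInf fun k => BSet.Ext.himp (BSet.Ext.const _) (e1 omN (cN γ) k (rN a) (rN a)).2.2)]
    unfold beta
    refine iSup_congr fun y => ?_
    rw [iInf_omN (fun k => inoV omN (cN γ) k (rN a) (rN y))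
      (e1 omN (cN γ) (nn 0) (rN a) (rN y)).1]
    exact iInf_congr fun k => hINO L γ k a y
  rw [eq_top_iff]
  unfold anaV
  refine le_trans ?_ (le_iSup _ (cN γ))
  rw [h6 (beta γ) (prjV omN (cN γ)) (xr γ) (e2 omN (cN γ))]
  refine le_iInf fun a => ?_
  rw [hp a]
  unfold iffV
  simp

end AN.PkANA
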